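import Mathlib

set_option autoImplicit false

namespace Pool.Agent.Results.MP_b57ad3_co.Cex

def Cross (p q : ℕ × ℕ) : Prop :=
  (p.1 < q.1 ∧ q.1 < p.2 ∧ p.2 < q.2) ∨ (q.1 < p.1 ∧ p.1 < q.2 ∧ q.2 < p.2)

def IsTri (N : ℕ) (D : Finset (ℕ × ℕ)) : Prop :=
  ∀ p, p ∈ D ↔ (1 ≤ p.1 ∧ p.1 + 1 < p.2 ∧ p.2 ≤ N ∧ p ≠ (1, N)) ∧ ∀ q ∈ D, ¬ Cross p q

def Edge (N : ℕ) (D : Finset (ℕ × ℕ)) (a b : ℕ) : Prop :=
  b = a + 1 ∨ (a = 1 ∧ b = N) ∨ (a, b) ∈ D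

def Colorful (N : ℕ) (D : Finset (ℕ × ℕ)) : Prop :=
  IsTri N D ∧ ∀ a b c, 1 ≤ a → a < b → b < c → c ≤ N → Edge N D a b → Edge N D b c → Edge N D a c →
    a % 3 ≠ b % 3 ∧ b % 3 ≠ c % 3 ∧ a % 3 ≠ c % 3

def Twist (N : ℕ) (D D' : Finset (ℕ × ℕ)) : Prop :=
  ∃ a b c d e f, 1 ≤ a ∧ a < b ∧ b < c ∧ c < d ∧ d < e ∧ e < f ∧ f ≤ N ∧
    Edge N D a b ∧ Edge N D b c ∧ Edge N D c d ∧ Edge N D d e ∧ Edge N D e f ∧ Edge N D a f ∧
    {(a, c), (c, e), (a, e)} ⊆ D ∧ D' = D \ {(a, c), (c, e), (a, e)} ∪ {(b, d), (d, f), (b, f)}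

def Adj (N : ℕ) (D D' : Finset (ℕ × ℕ)) : Prop :=
  Colorful N D ∧ Colorful N D' ∧ (Twist N D D' ∨ Twist N D' D)

private def dg (a c : ℕ) : List (ℕ × ℕ) := if c = a + 1 then [] else [(a, c)]

private def en : ℕ → ℕ → ℕ → List (List (ℕ × ℕ))
  | 0, _, _ => []
  | f + 1, a, b => if b = a + 1 then [[]] else (List.range' (a + 1) (b - a - 1)).flatMap fun c =>
      if a % 3 ≠ c % 3 ∧ c % 3 ≠ b % 3 then (en f a c).flatMap fun l => (en f c b).map fun r =>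
        dg a c ++ l ++ dg c b ++ r else []

private theorem enum {N : ℕ} {D : Finset (ℕ × ℕ)} (h : Colorful N D) : ∀ f a b, 1 ≤ a → a < b →
    b ≤ N → b - a ≤ f → Edge N D a b →
    ∃ l ∈ en f a b, ∀ p, p ∈ l ↔ p ∈ D ∧ a ≤ p.1 ∧ p.2 ≤ b ∧ p ≠ (a, b) := by
  classical
  have B : ∀ p ∈ D, 1 ≤ p.1 ∧ p.1 + 1 < p.2 ∧ p.2 ≤ N := fun p hp =>
    ⟨((h.1 p).1 hp).1.1, ((h.1 p).1 hp).1.2.1, ((h.1 p).1 hp).1.2.2.1⟩
  have X : ∀ a b, Edge N D a b → ∀ q ∈ D, ¬ Cross (a, b) q := by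
    rintro a b (e | e | e) q hq
    · unfold Cross; omega
    · have := B q hq
      unfold Cross; omega
    · exact ((h.1 _).1 e).2 q hq
  intro f
  induction f with
  | zero => intro a b _ _ _ _; omega
  | succ f ih =>
    intro a b h1 h2 h3 h4 h5
    by_cases e : b = a + 1
    · refine ⟨[], by simp [en, e], fun p => ⟨by simp, fun ⟨k1, k2, k3, _⟩ => ?_⟩⟩
      have := B p k1
      omega
    have c1 := Nat.findGreatest_spec (P := fun c => a < c ∧ Edge N D a c) (m := a + 1) (n := b - 1)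
      (by omega) ⟨by omega, .inl rfl⟩
    have c2 := Nat.findGreatest_le (P := fun c => a < c ∧ Edge N D a c) (b - 1)
    have c3 := fun k => Nat.findGreatest_is_greatest (P := fun c => a < c ∧ Edge N D a c) (k := k)
      (n := b - 1)
    generalize Nat.findGreatest (fun c => a < c ∧ Edge N D a c) (b - 1) = c at c1 c2 c3
    have c4 : Edge N D c b := by
      by_cases e' : b = c + 1
      · exact .inl e'
      refine .inr (.inr ((h.1 _).2 ⟨⟨by omega, by omega, h3, by simp; omega⟩, fun ⟨x, y⟩ hq k => ?_⟩))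
      have k1 := X a b h5 _ hq
      have k2 := X a c c1.2 _ hq
      unfold Cross at k k1 k2
      simp only at k k1 k2
      obtain rfl : x = a := by omega
      exact c3 y (by omega) (by omega) ⟨by omega, .inr (.inr hq)⟩
    obtain ⟨l, l1, l2⟩ := ih a c h1 c1.1 (by omega) (by omega) c1.2
    obtain ⟨r, r1, r2⟩ := ih c b (by omega) (by omega) h3 (by omega) c4
    have k := h.2 a c b h1 c1.1 (by omega) h3 c1.2 c4 h5
    refine ⟨dg a c ++ l ++ dg c b ++ r, ?_, fun ⟨x, y⟩ => ?_⟩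
    · rw [en, if_neg e]
      refine List.mem_flatMap.2 ⟨c, List.mem_range'_1.2 (by omega), ?_⟩
      rw [if_pos ⟨k.1, k.2.1⟩]
      exact List.mem_flatMap.2 ⟨l, l1, List.mem_map.2 ⟨r, r1, rfl⟩⟩
    · have d : ∀ u v, u < v → v ≤ N → v - u < b - a → Edge N D u v →
          ((x, y) ∈ dg u v ↔ (x, y) ∈ D ∧ x = u ∧ y = v) := by
        rintro u v _ _ _ g
        unfold dg
        split_ifs with s
        · exact ⟨by simp, fun ⟨k1, _, _⟩ => by have := B _ k1; omega⟩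
        · have : (u, v) ∈ D := (g.resolve_left s).resolve_left (by omega)
          simp only [List.mem_singleton, Prod.mk.injEq]
          exact ⟨fun ⟨p, q⟩ => ⟨p ▸ q ▸ this, p, q⟩, fun k => k.2⟩
      simp only [List.mem_append, l2, r2, d a c c1.1 (by omega) (by omega) c1.2,
        d c b (by omega) h3 (by omega) c4, ne_eq, Prod.mk.injEq]
      by_cases hq : (x, y) ∈ D
      · have k1 := X a c c1.2 _ hq
        have k2 := X c b c4 _ hq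
        have k3 : x = a → c < y → y ≤ b - 1 → False := by
          rintro rfl p q
          exact c3 y p q ⟨by omega, .inr (.inr hq)⟩
        have := B _ hq
        unfold Cross at k1 k2
        simp only [hq, true_and] at k1 k2 this ⊢
        omega
      · simp [hq]

private def Ls : List (List (ℕ × ℕ)) :=
  [[(1, 3), (3, 14), (4, 14), (4, 6), (6, 14), (7, 14), (7, 9), (9, 14), (10, 14), (10, 12), (12, 14)],
  [(1, 3), (3, 14), (4, 14), (4, 6), (6, 14), (7, 14), (7, 9), (9, 14), (9, 13), (9, 11), (11, 13)],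
  [(1, 3), (3, 14), (4, 14), (4, 6), (6, 14), (6, 10), (6, 8), (8, 10), (10, 14), (10, 12), (12, 14)],
  [(1, 3), (3, 14), (3, 7), (3, 5), (5, 7), (7, 14), (7, 9), (9, 14), (10, 14), (10, 12), (12, 14)],
  [(1, 3), (3, 14), (4, 14), (4, 6), (6, 14), (6, 13), (6, 8), (8, 13), (9, 13), (9, 11), (11, 13)],
  [(1, 3), (3, 14), (3, 7), (3, 5), (5, 7), (7, 14), (7, 9), (9, 14), (9, 13), (9, 11), (11, 13)],
  [(1, 3), (3, 14), (4, 14), (4, 6), (6, 14), (6, 13), (6, 11), (6, 10), (6, 8), (8, 10), (11, 13)],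
  [(1, 3), (3, 14), (4, 14), (4, 12), (4, 8), (4, 6), (6, 8), (8, 12), (8, 10), (10, 12), (12, 14)],
  [(1, 3), (3, 14), (3, 10), (3, 5), (5, 10), (6, 10), (6, 8), (8, 10), (10, 14), (10, 12), (12, 14)],
  [(1, 3), (3, 14), (3, 10), (3, 8), (3, 7), (3, 5), (5, 7), (8, 10), (10, 14), (10, 12), (12, 14)],
  [(1, 9), (1, 5), (1, 3), (3, 5), (5, 9), (5, 7), (7, 9), (9, 14), (10, 14), (10, 12), (12, 14)],
  [(1, 3), (3, 14), (4, 14), (4, 6), (6, 14), (6, 13), (6, 8), (8, 13), (8, 12), (8, 10), (10, 12)],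
  [(1, 3), (3, 14), (3, 13), (3, 5), (5, 13), (6, 13), (6, 8), (8, 13), (9, 13), (9, 11), (11, 13)],
  [(1, 3), (3, 14), (3, 13), (3, 8), (3, 7), (3, 5), (5, 7), (8, 13), (9, 13), (9, 11), (11, 13)],
  [(1, 9), (1, 5), (1, 3), (3, 5), (5, 9), (5, 7), (7, 9), (9, 14), (9, 13), (9, 11), (11, 13)],
  [(1, 3), (3, 14), (4, 14), (4, 6), (6, 14), (6, 13), (6, 11), (7, 11), (7, 9), (9, 11), (11, 13)],
  [(1, 3), (3, 14), (3, 13), (3, 5), (5, 13), (6, 13), (6, 11), (6, 10), (6, 8), (8, 10), (11, 13)],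
  [(1, 3), (3, 14), (4, 14), (4, 12), (5, 12), (5, 7), (7, 12), (8, 12), (8, 10), (10, 12), (12, 14)],
  [(1, 3), (3, 14), (4, 14), (4, 12), (4, 11), (4, 9), (4, 8), (4, 6), (6, 8), (9, 11), (12, 14)],
  [(1, 3), (3, 14), (3, 13), (3, 8), (4, 8), (4, 6), (6, 8), (8, 13), (8, 12), (8, 10), (10, 12)],
  [(1, 3), (3, 14), (3, 10), (3, 5), (5, 10), (5, 9), (5, 7), (7, 9), (10, 14), (10, 12), (12, 14)],
  [(1, 3), (3, 14), (3, 13), (3, 11), (3, 10), (3, 5), (5, 10), (6, 10), (6, 8), (8, 10), (11, 13)],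
  [(1, 12), (1, 5), (1, 3), (3, 5), (5, 12), (5, 10), (6, 10), (6, 8), (8, 10), (10, 12), (12, 14)],
  [(1, 3), (3, 14), (3, 10), (3, 8), (4, 8), (4, 6), (6, 8), (8, 10), (10, 14), (10, 12), (12, 14)],
  [(1, 3), (3, 14), (3, 13), (3, 11), (3, 10), (3, 8), (3, 7), (3, 5), (5, 7), (8, 10), (11, 13)],
  [(1, 12), (1, 8), (1, 3), (3, 8), (3, 7), (3, 5), (5, 7), (8, 12), (8, 10), (10, 12), (12, 14)],
  [(1, 9), (2, 9), (2, 4), (4, 9), (5, 9), (5, 7), (7, 9), (9, 14), (10, 14), (10, 12), (12, 14)],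
  [(1, 9), (1, 8), (1, 6), (1, 5), (1, 3), (3, 5), (6, 8), (9, 14), (10, 14), (10, 12), (12, 14)],
  [(1, 3), (3, 14), (4, 14), (4, 6), (6, 14), (7, 14), (7, 12), (8, 12), (8, 10), (10, 12), (12, 14)],
  [(1, 3), (3, 14), (3, 13), (3, 5), (5, 13), (6, 13), (6, 8), (8, 13), (8, 12), (8, 10), (10, 12)],
  [(1, 3), (3, 14), (3, 13), (3, 5), (5, 13), (5, 9), (5, 7), (7, 9), (9, 13), (9, 11), (11, 13)],
  [(1, 3), (3, 14), (3, 13), (3, 8), (4, 8), (4, 6), (6, 8), (8, 13), (9, 13), (9, 11), (11, 13)],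
  [(1, 3), (3, 14), (3, 13), (3, 8), (3, 7), (3, 5), (5, 7), (8, 13), (8, 12), (8, 10), (10, 12)],
  [(1, 9), (2, 9), (2, 4), (4, 9), (5, 9), (5, 7), (7, 9), (9, 14), (9, 13), (9, 11), (11, 13)],
  [(1, 9), (1, 8), (1, 6), (1, 5), (1, 3), (3, 5), (6, 8), (9, 14), (9, 13), (9, 11), (11, 13)],
  [(1, 3), (3, 14), (4, 14), (4, 6), (6, 14), (7, 14), (7, 12), (7, 11), (7, 9), (9, 11), (12, 14)],
  [(1, 3), (3, 14), (3, 13), (3, 5), (5, 13), (6, 13), (6, 11), (7, 11), (7, 9), (9, 11), (11, 13)],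
  [(1, 3), (3, 14), (3, 13), (3, 5), (5, 13), (5, 12), (5, 10), (6, 10), (6, 8), (8, 10), (10, 12)],
  [(1, 3), (3, 14), (4, 14), (4, 12), (5, 12), (5, 7), (7, 12), (7, 11), (7, 9), (9, 11), (12, 14)],
  [(1, 3), (3, 14), (3, 13), (3, 5), (5, 13), (5, 12), (5, 7), (7, 12), (8, 12), (8, 10), (10, 12)],
  [(1, 3), (3, 14), (4, 14), (4, 12), (4, 11), (4, 9), (5, 9), (5, 7), (7, 9), (9, 11), (12, 14)],
  [(1, 3), (3, 14), (3, 13), (3, 11), (4, 11), (4, 9), (4, 8), (4, 6), (6, 8), (9, 11), (11, 13)],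
  [(1, 3), (3, 14), (4, 14), (4, 9), (5, 9), (5, 7), (7, 9), (9, 14), (10, 14), (10, 12), (12, 14)],
  [(1, 3), (3, 14), (3, 13), (3, 11), (3, 10), (3, 5), (5, 10), (5, 9), (5, 7), (7, 9), (11, 13)],
  [(1, 12), (1, 5), (1, 3), (3, 5), (5, 12), (5, 10), (5, 9), (5, 7), (7, 9), (10, 12), (12, 14)],
  [(1, 3), (3, 14), (3, 13), (3, 11), (4, 11), (4, 6), (6, 11), (6, 10), (6, 8), (8, 10), (11, 13)],
  [(1, 12), (2, 12), (2, 4), (4, 12), (5, 12), (5, 10), (6, 10), (6, 8), (8, 10), (10, 12), (12, 14)],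
  [(1, 12), (1, 11), (1, 6), (1, 5), (1, 3), (3, 5), (6, 11), (6, 10), (6, 8), (8, 10), (12, 14)],
  [(1, 3), (3, 14), (4, 14), (4, 9), (4, 8), (4, 6), (6, 8), (9, 14), (10, 14), (10, 12), (12, 14)],
  [(1, 3), (3, 14), (3, 13), (3, 11), (3, 10), (3, 8), (4, 8), (4, 6), (6, 8), (8, 10), (11, 13)],
  [(1, 12), (1, 8), (1, 3), (3, 8), (4, 8), (4, 6), (6, 8), (8, 12), (8, 10), (10, 12), (12, 14)],
  [(1, 3), (3, 14), (3, 13), (3, 11), (3, 7), (3, 5), (5, 7), (7, 11), (7, 9), (9, 11), (11, 13)],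
  [(1, 12), (2, 12), (2, 7), (3, 7), (3, 5), (5, 7), (7, 12), (8, 12), (8, 10), (10, 12), (12, 14)],
  [(1, 12), (1, 11), (1, 9), (1, 8), (1, 3), (3, 8), (3, 7), (3, 5), (5, 7), (9, 11), (12, 14)],
  [(1, 9), (2, 9), (2, 4), (4, 9), (4, 8), (4, 6), (6, 8), (9, 14), (10, 14), (10, 12), (12, 14)],
  [(1, 9), (1, 8), (1, 6), (2, 6), (2, 4), (4, 6), (6, 8), (9, 14), (10, 14), (10, 12), (12, 14)],
  [(1, 3), (3, 14), (3, 7), (3, 5), (5, 7), (7, 14), (7, 12), (8, 12), (8, 10), (10, 12), (12, 14)],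
  [(1, 3), (3, 14), (4, 14), (4, 9), (5, 9), (5, 7), (7, 9), (9, 14), (9, 13), (9, 11), (11, 13)],
  [(1, 3), (3, 14), (3, 13), (3, 5), (5, 13), (5, 12), (5, 10), (5, 9), (5, 7), (7, 9), (10, 12)],
  [(1, 3), (3, 14), (4, 14), (4, 9), (4, 8), (4, 6), (6, 8), (9, 14), (9, 13), (9, 11), (11, 13)],
  [(1, 9), (2, 9), (2, 4), (4, 9), (4, 8), (4, 6), (6, 8), (9, 14), (9, 13), (9, 11), (11, 13)],
  [(1, 9), (1, 8), (1, 6), (2, 6), (2, 4), (4, 6), (6, 8), (9, 14), (9, 13), (9, 11), (11, 13)],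
  [(1, 3), (3, 14), (3, 7), (3, 5), (5, 7), (7, 14), (7, 12), (7, 11), (7, 9), (9, 11), (12, 14)],
  [(1, 3), (3, 14), (3, 13), (3, 5), (5, 13), (5, 12), (5, 7), (7, 12), (7, 11), (7, 9), (9, 11)],
  [(1, 3), (3, 14), (4, 14), (4, 12), (5, 12), (5, 10), (6, 10), (6, 8), (8, 10), (10, 12), (12, 14)],
  [(1, 3), (3, 14), (4, 14), (4, 12), (4, 11), (4, 6), (6, 11), (7, 11), (7, 9), (9, 11), (12, 14)],
  [(1, 3), (3, 14), (4, 14), (4, 12), (5, 12), (5, 10), (5, 9), (5, 7), (7, 9), (10, 12), (12, 14)],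
  [(1, 3), (3, 14), (3, 13), (3, 11), (4, 11), (4, 9), (5, 9), (5, 7), (7, 9), (9, 11), (11, 13)],
  [(1, 12), (2, 12), (2, 4), (4, 12), (5, 12), (5, 10), (5, 9), (5, 7), (7, 9), (10, 12), (12, 14)],
  [(1, 12), (1, 11), (1, 9), (1, 5), (1, 3), (3, 5), (5, 9), (5, 7), (7, 9), (9, 11), (12, 14)],
  [(1, 3), (3, 14), (4, 14), (4, 12), (4, 11), (4, 6), (6, 11), (6, 10), (6, 8), (8, 10), (12, 14)],
  [(1, 3), (3, 14), (3, 13), (3, 11), (4, 11), (4, 6), (6, 11), (7, 11), (7, 9), (9, 11), (11, 13)],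
  [(1, 12), (2, 12), (2, 4), (4, 12), (4, 11), (4, 6), (6, 11), (6, 10), (6, 8), (8, 10), (12, 14)],
  [(1, 12), (1, 11), (1, 6), (2, 6), (2, 4), (4, 6), (6, 11), (6, 10), (6, 8), (8, 10), (12, 14)],
  [(1, 12), (1, 11), (1, 6), (1, 5), (1, 3), (3, 5), (6, 11), (7, 11), (7, 9), (9, 11), (12, 14)],
  [(1, 12), (2, 12), (2, 4), (4, 12), (4, 8), (4, 6), (6, 8), (8, 12), (8, 10), (10, 12), (12, 14)],
  [(1, 12), (1, 11), (1, 9), (1, 8), (1, 3), (3, 8), (4, 8), (4, 6), (6, 8), (9, 11), (12, 14)],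
  [(1, 12), (2, 12), (2, 7), (3, 7), (3, 5), (5, 7), (7, 12), (7, 11), (7, 9), (9, 11), (12, 14)],
  [(1, 12), (2, 12), (2, 7), (2, 6), (2, 4), (4, 6), (7, 12), (8, 12), (8, 10), (10, 12), (12, 14)],
  [(1, 12), (1, 11), (1, 9), (2, 9), (2, 7), (3, 7), (3, 5), (5, 7), (7, 9), (9, 11), (12, 14)],
  [(1, 9), (1, 8), (1, 3), (3, 8), (4, 8), (4, 6), (6, 8), (9, 14), (10, 14), (10, 12), (12, 14)],
  [(1, 9), (2, 9), (2, 7), (2, 6), (2, 4), (4, 6), (7, 9), (9, 14), (10, 14), (10, 12), (12, 14)],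
  [(1, 12), (1, 5), (1, 3), (3, 5), (5, 12), (5, 7), (7, 12), (8, 12), (8, 10), (10, 12), (12, 14)],
  [(1, 9), (1, 8), (1, 3), (3, 8), (4, 8), (4, 6), (6, 8), (9, 14), (9, 13), (9, 11), (11, 13)],
  [(1, 9), (2, 9), (2, 7), (2, 6), (2, 4), (4, 6), (7, 9), (9, 14), (9, 13), (9, 11), (11, 13)],
  [(1, 12), (1, 5), (1, 3), (3, 5), (5, 12), (5, 7), (7, 12), (7, 11), (7, 9), (9, 11), (12, 14)],
  [(1, 12), (2, 12), (2, 4), (4, 12), (4, 11), (4, 9), (5, 9), (5, 7), (7, 9), (9, 11), (12, 14)],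
  [(1, 12), (1, 11), (1, 9), (2, 9), (2, 4), (4, 9), (5, 9), (5, 7), (7, 9), (9, 11), (12, 14)],
  [(1, 12), (1, 11), (1, 3), (3, 11), (3, 7), (3, 5), (5, 7), (7, 11), (7, 9), (9, 11), (12, 14)],
  [(1, 12), (1, 11), (1, 9), (1, 8), (1, 6), (1, 5), (1, 3), (3, 5), (6, 8), (9, 11), (12, 14)],
  [(1, 12), (2, 12), (2, 4), (4, 12), (4, 11), (4, 6), (6, 11), (7, 11), (7, 9), (9, 11), (12, 14)],
  [(1, 12), (1, 11), (1, 3), (3, 11), (4, 11), (4, 6), (6, 11), (6, 10), (6, 8), (8, 10), (12, 14)],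
  [(1, 12), (2, 12), (2, 10), (2, 6), (2, 4), (4, 6), (6, 10), (6, 8), (8, 10), (10, 12), (12, 14)],
  [(1, 12), (1, 11), (1, 6), (2, 6), (2, 4), (4, 6), (6, 11), (7, 11), (7, 9), (9, 11), (12, 14)],
  [(1, 12), (2, 12), (2, 4), (4, 12), (5, 12), (5, 7), (7, 12), (8, 12), (8, 10), (10, 12), (12, 14)],
  [(1, 12), (2, 12), (2, 4), (4, 12), (4, 11), (4, 9), (4, 8), (4, 6), (6, 8), (9, 11), (12, 14)],
  [(1, 12), (1, 11), (1, 9), (2, 9), (2, 4), (4, 9), (4, 8), (4, 6), (6, 8), (9, 11), (12, 14)],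
  [(1, 12), (2, 12), (2, 7), (2, 6), (2, 4), (4, 6), (7, 12), (7, 11), (7, 9), (9, 11), (12, 14)],
  [(1, 12), (1, 8), (1, 6), (2, 6), (2, 4), (4, 6), (6, 8), (8, 12), (8, 10), (10, 12), (12, 14)],
  [(1, 12), (2, 12), (2, 10), (2, 9), (2, 7), (3, 7), (3, 5), (5, 7), (7, 9), (10, 12), (12, 14)],
  [(1, 12), (1, 11), (1, 9), (2, 9), (2, 7), (2, 6), (2, 4), (4, 6), (7, 9), (9, 11), (12, 14)],
  [(1, 9), (1, 8), (1, 3), (3, 8), (3, 7), (3, 5), (5, 7), (9, 14), (10, 14), (10, 12), (12, 14)],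
  [(1, 9), (2, 9), (2, 7), (3, 7), (3, 5), (5, 7), (7, 9), (9, 14), (10, 14), (10, 12), (12, 14)],
  [(1, 12), (1, 8), (1, 6), (1, 5), (1, 3), (3, 5), (6, 8), (8, 12), (8, 10), (10, 12), (12, 14)],
  [(1, 9), (1, 8), (1, 3), (3, 8), (3, 7), (3, 5), (5, 7), (9, 14), (9, 13), (9, 11), (11, 13)],
  [(1, 9), (2, 9), (2, 7), (3, 7), (3, 5), (5, 7), (7, 9), (9, 14), (9, 13), (9, 11), (11, 13)],
  [(1, 12), (2, 12), (2, 4), (4, 12), (5, 12), (5, 7), (7, 12), (7, 11), (7, 9), (9, 11), (12, 14)],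
  [(1, 12), (1, 11), (1, 3), (3, 11), (4, 11), (4, 9), (5, 9), (5, 7), (7, 9), (9, 11), (12, 14)],
  [(1, 12), (2, 12), (2, 10), (2, 9), (2, 4), (4, 9), (5, 9), (5, 7), (7, 9), (10, 12), (12, 14)],
  [(1, 12), (1, 11), (1, 3), (3, 11), (4, 11), (4, 6), (6, 11), (7, 11), (7, 9), (9, 11), (12, 14)],
  [(1, 12), (1, 11), (1, 3), (3, 11), (3, 10), (3, 8), (3, 7), (3, 5), (5, 7), (8, 10), (12, 14)],
  [(1, 12), (1, 11), (1, 9), (1, 8), (1, 6), (2, 6), (2, 4), (4, 6), (6, 8), (9, 11), (12, 14)],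
  [(1, 12), (1, 11), (1, 3), (3, 11), (3, 10), (3, 5), (5, 10), (6, 10), (6, 8), (8, 10), (12, 14)],
  [(1, 12), (2, 12), (2, 10), (3, 10), (3, 5), (5, 10), (6, 10), (6, 8), (8, 10), (10, 12), (12, 14)],
  [(1, 12), (2, 12), (2, 10), (2, 9), (2, 7), (2, 6), (2, 4), (4, 6), (7, 9), (10, 12), (12, 14)],
  [(1, 12), (1, 11), (1, 3), (3, 11), (4, 11), (4, 9), (4, 8), (4, 6), (6, 8), (9, 11), (12, 14)],
  [(1, 12), (2, 12), (2, 10), (2, 9), (2, 4), (4, 9), (4, 8), (4, 6), (6, 8), (10, 12), (12, 14)],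
  [(1, 6), (2, 6), (2, 4), (4, 6), (6, 14), (6, 10), (6, 8), (8, 10), (10, 14), (10, 12), (12, 14)],
  [(1, 12), (2, 12), (2, 10), (3, 10), (3, 8), (3, 7), (3, 5), (5, 7), (8, 10), (10, 12), (12, 14)],
  [(1, 6), (1, 5), (1, 3), (3, 5), (6, 14), (6, 10), (6, 8), (8, 10), (10, 14), (10, 12), (12, 14)],
  [(1, 12), (1, 11), (1, 3), (3, 11), (3, 10), (3, 5), (5, 10), (5, 9), (5, 7), (7, 9), (12, 14)],
  [(1, 12), (2, 12), (2, 10), (3, 10), (3, 5), (5, 10), (5, 9), (5, 7), (7, 9), (10, 12), (12, 14)],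
  [(1, 12), (1, 11), (1, 3), (3, 11), (3, 10), (3, 8), (4, 8), (4, 6), (6, 8), (8, 10), (12, 14)],
  [(1, 12), (2, 12), (2, 10), (3, 10), (3, 8), (4, 8), (4, 6), (6, 8), (8, 10), (10, 12), (12, 14)],
  [(1, 6), (2, 6), (2, 4), (4, 6), (6, 14), (7, 14), (7, 9), (9, 14), (10, 14), (10, 12), (12, 14)],
  [(1, 6), (2, 6), (2, 4), (4, 6), (6, 14), (6, 13), (6, 11), (6, 10), (6, 8), (8, 10), (11, 13)],
  [(1, 6), (1, 5), (1, 3), (3, 5), (6, 14), (7, 14), (7, 9), (9, 14), (10, 14), (10, 12), (12, 14)],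
  [(1, 6), (1, 5), (1, 3), (3, 5), (6, 14), (6, 13), (6, 11), (6, 10), (6, 8), (8, 10), (11, 13)],
  [(1, 6), (2, 6), (2, 4), (4, 6), (6, 14), (7, 14), (7, 9), (9, 14), (9, 13), (9, 11), (11, 13)],
  [(1, 6), (2, 6), (2, 4), (4, 6), (6, 14), (6, 13), (6, 11), (7, 11), (7, 9), (9, 11), (11, 13)],
  [(1, 6), (1, 5), (1, 3), (3, 5), (6, 14), (7, 14), (7, 9), (9, 14), (9, 13), (9, 11), (11, 13)],
  [(1, 6), (1, 5), (1, 3), (3, 5), (6, 14), (6, 13), (6, 11), (7, 11), (7, 9), (9, 11), (11, 13)],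
  [(1, 6), (2, 6), (2, 4), (4, 6), (6, 14), (6, 13), (6, 8), (8, 13), (9, 13), (9, 11), (11, 13)],
  [(1, 6), (2, 6), (2, 4), (4, 6), (6, 14), (7, 14), (7, 12), (7, 11), (7, 9), (9, 11), (12, 14)],
  [(1, 6), (1, 5), (1, 3), (3, 5), (6, 14), (6, 13), (6, 8), (8, 13), (9, 13), (9, 11), (11, 13)],
  [(1, 6), (1, 5), (1, 3), (3, 5), (6, 14), (7, 14), (7, 12), (7, 11), (7, 9), (9, 11), (12, 14)],
  [(1, 6), (2, 6), (2, 4), (4, 6), (6, 14), (6, 13), (6, 8), (8, 13), (8, 12), (8, 10), (10, 12)],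
  [(1, 6), (2, 6), (2, 4), (4, 6), (6, 14), (7, 14), (7, 12), (8, 12), (8, 10), (10, 12), (12, 14)],
  [(1, 6), (1, 5), (1, 3), (3, 5), (6, 14), (6, 13), (6, 8), (8, 13), (8, 12), (8, 10), (10, 12)],
  [(1, 6), (1, 5), (1, 3), (3, 5), (6, 14), (7, 14), (7, 12), (8, 12), (8, 10), (10, 12), (12, 14)]]

private def Pa : List (ℕ × Bool × ℕ × ℕ × ℕ × ℕ × ℕ × ℕ) :=
  [(0, true, 0, 0, 0, 0, 0, 0), (0, false, 9, 10, 11, 12, 13, 14), (0, false, 6, 7, 8, 9, 10, 14), (0, false, 3, 4, 5, 6, 7, 14), (1, false, 6, 7, 8, 9, 13, 14), (1, false, 3, 4, 5, 6, 7, 14), (2, false, 6, 10, 11, 12, 13, 14), (2, false, 4, 6, 8, 10, 12, 14), (2, false, 3, 4, 5, 6, 10, 14), (3, false, 3, 7, 8, 9, 10, 14), (3, false, 1, 3, 5, 7, 9, 14), (4, false, 8, 9, 10, 11, 12, 13), (4, false, 3, 4, 5, 6, 13, 14), (5, false, 3, 7, 8, 9, 13, 14), (5, false, 1, 3, 5, 7, 9, 14), (6, true, 6, 7, 8, 9, 10, 11), (6, false,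 3, 4, 5, 6, 13, 14), (7, true, 4, 5, 6, 7, 8, 12), (7, false, 4, 8, 9, 10, 11, 12), (7, false, 3, 4, 8, 12, 13, 14), (8, false, 5, 6, 7, 8, 9, 10), (8, false, 3, 10, 11, 12, 13, 14), (8, false, 1, 3, 5, 10, 12, 14), (9, true, 3, 4, 5, 6, 7, 8), (9, false, 3, 10, 11, 12, 13, 14), (9, false, 1, 3, 8, 10, 12, 14), (10, true, 1, 2, 3, 4, 5, 9), (10, false, 1, 5, 6, 7, 8, 9), (11, true, 6, 7, 8, 12, 13, 14), (11, false, 3, 4, 5, 6, 13, 14), (12, false, 5, 6, 7, 8, 9, 13), (13, true, 3, 4, 5, 6, 7, 8), (13, false, 8, 9, 10, 11, 12, 13), (14, true, 1, 2, 3, 4, 5, 9), (14, false, 1, 5, 6, 7, 8, 9), (15, true, 6, 7, 11, 12, 13, 14), (15, false, 3, 4, 5, 6, 13, 14), (16, false, 5, 6, 10, 11, 12, 13), (17, false, 7, 8, 9, 10, 11, 12), (17, false, 3, 4, 5, 12, 13, 14), (18, true, 4, 5, 6, 7, 8, 9), (18, false, 3, 4, 11, 12, 13, 14), (20, true, 3, 4, 5, 9, 10, 14), (20, false, 3, 10,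 11, 12, 13, 14), (20, false, 1, 3, 5, 10, 12, 14), (21, true, 3, 4, 5, 6, 10, 11), (22, true, 1, 2, 3, 4, 5, 12), (22, false, 1, 5, 6, 10, 11, 12), (23, true, 3, 4, 8, 9, 10, 14), (23, false, 3, 10, 11, 12, 13, 14), (23, false, 1, 3, 8, 10, 12, 14), (24, true, 3, 7, 8, 9, 10, 11), (25, true, 1, 2, 3, 7, 8, 12), (25, false, 1, 8, 9, 10, 11, 12), (26, false, 4, 5, 6, 7, 8, 9), (27, true, 1, 2, 3, 4, 5, 6), (28, false, 3, 4, 5, 6, 7, 14), (30, true, 3, 4, 5, 9, 13, 14), (30, false, 5, 9, 10, 11, 12, 13), (31, true, 3, 4, 8, 9, 13, 14), (33, false, 4, 5, 6, 7, 8, 9), (34, true, 1, 2, 3, 4, 5, 6), (35, false, 3, 4, 5, 6, 7, 14), (36, false, 5, 6, 7, 11, 12, 13), (37, true, 3, 4, 5, 12, 13, 14), (38, false, 4, 5, 6, 7, 11, 12), (40, true, 4, 5, 9, 10, 11, 12), (40, false, 3, 4, 11, 12, 13, 14), (44, true, 1, 2, 3, 4, 5, 12), (44, false, 1, 5, 9, 10, 11, 12), (45, true, 3, 4, 11,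 12, 13, 14), (45, true, 6, 7, 8, 9, 10, 11), (46, false, 4, 5, 6, 10, 11, 12), (47, true, 1, 2, 3, 4, 5, 6), (47, true, 6, 7, 8, 9, 10, 11), (50, true, 1, 2, 3, 4, 8, 12), (50, false, 1, 8, 9, 10, 11, 12), (52, false, 7, 8, 9, 10, 11, 12), (52, false, 2, 3, 4, 5, 6, 7), (53, true, 1, 2, 3, 7, 8, 9), (54, false, 1, 2, 3, 4, 8, 9), (55, true, 1, 2, 6, 7, 8, 9), (56, false, 1, 3, 5, 7, 12, 14), (60, false, 1, 2, 3, 4, 8, 9), (61, true, 1, 2, 6, 7, 8, 9), (62, false, 1, 3, 5, 7, 12, 14), (68, false, 4, 5, 9, 10, 11, 12), (69, true, 1, 2, 3, 4, 5, 9), (69, true, 1, 3, 5, 7, 9, 11), (69, false, 1, 5, 6, 7, 8, 9), (72, true, 6, 7, 8, 9, 10, 11), (72, false, 1, 2, 3, 4, 11, 12), (73, true, 1, 2, 6, 10, 11, 12), (73, true, 6, 7, 8, 9, 10, 11), (75, true, 4, 5, 6, 7, 8, 12), (75, false, 4, 8, 9, 10, 11, 12), (76, true, 1, 2, 3, 4, 8, 9), (77, false, 2, 3, 4, 5, 6, 7), (78, false, 1,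 2, 6, 7, 8, 12), (79, true, 1, 2, 9, 10, 11, 12), (79, false, 2, 3, 4, 5, 6, 7), (80, false, 3, 4, 5, 6, 7, 8), (81, true, 2, 3, 4, 5, 6, 7), (82, false, 1, 5, 6, 7, 8, 12), (83, false, 3, 4, 5, 6, 7, 8), (84, true, 2, 3, 4, 5, 6, 7), (85, true, 1, 2, 3, 4, 5, 12), (86, false, 1, 2, 3, 4, 11, 12), (87, true, 1, 2, 9, 10, 11, 12), (88, true, 3, 4, 5, 6, 7, 11), (88, false, 3, 7, 8, 9, 10, 11), (89, true, 1, 2, 3, 4, 5, 6), (91, false, 3, 4, 5, 6, 10, 11), (92, true, 2, 3, 4, 5, 6, 10), (92, false, 2, 6, 7, 8, 9, 10), (95, false, 1, 2, 3, 4, 11, 12), (96, true, 1, 2, 9, 10, 11, 12), (98, true, 1, 6, 8, 10, 12, 14), (99, true, 2, 3, 7, 8, 9, 10), (103, true, 1, 6, 8, 10, 12, 14), (107, false, 3, 4, 5, 9, 10, 11), (108, true, 2, 3, 4, 5, 9, 10), (110, true, 3, 4, 5, 6, 7, 8), (116, true, 2, 3, 4, 8, 9, 10), (117, true, 6, 7, 8, 9, 10, 14), (117, false, 6, 10, 11, 12, 13, 14),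 (119, true, 6, 7, 8, 9, 10, 14), (119, false, 6, 10, 11, 12, 13, 14), (124, false, 9, 10, 11, 12, 13, 14), (125, true, 6, 7, 8, 9, 10, 11), (126, false, 9, 10, 11, 12, 13, 14), (127, true, 6, 7, 8, 9, 10, 11), (128, false, 6, 7, 8, 9, 13, 14), (129, true, 6, 7, 11, 12, 13, 14), (130, false, 6, 7, 8, 9, 13, 14), (131, true, 6, 7, 11, 12, 13, 14), (132, false, 8, 9, 10, 11, 12, 13), (133, true, 7, 8, 9, 10, 11, 12), (134, false, 8, 9, 10, 11, 12, 13), (135, true, 7, 8, 9, 10, 11, 12)]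

private def me (l : List (ℕ × ℕ)) (p : ℕ × ℕ) : Bool := l.any fun q => Nat.beq p.1 q.1 && Nat.beq p.2 q.2

private theorem hme (l : List (ℕ × ℕ)) (p : ℕ × ℕ) : me l p = true ↔ p ∈ l := by
  simp [me, ← Prod.ext_iff]

private def nc (l : List (ℕ × ℕ)) (p : ℕ × ℕ) : Bool := l.all fun q =>
  !((Nat.blt p.1 q.1 && Nat.blt q.1 p.2 && Nat.blt p.2 q.2) ||
    (Nat.blt q.1 p.1 && Nat.blt p.1 q.2 && Nat.blt q.2 p.2))

private theorem hnc (l : List (ℕ × ℕ)) (p : ℕ × ℕ) : nc l p = true ↔ ∀ q ∈ l, ¬ Cross p q := by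
  simp only [nc, Cross, List.all_eq_true, Bool.not_eq_true', ← Bool.not_eq_true, Bool.or_eq_true,
    Bool.and_eq_true, Nat.blt_eq, and_assoc]

private def di (p : ℕ × ℕ) : Bool :=
  Nat.ble 1 p.1 && Nat.blt (p.1 + 1) p.2 && Nat.ble p.2 14 && !(Nat.beq p.1 1 && Nat.beq p.2 14)

private theorem hdi (p : ℕ × ℕ) : di p = true ↔ 1 ≤ p.1 ∧ p.1 + 1 < p.2 ∧ p.2 ≤ 14 ∧ p ≠ (1, 14) := by
  simp only [di, Bool.not_eq_true', ← Bool.not_eq_true, Bool.and_eq_true, Nat.blt_eq, Nat.ble_eq,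
    Nat.beq_eq, and_assoc, ne_eq, Prod.ext_iff]

private def co (l : List (ℕ × ℕ)) : Bool :=
  (l.all fun p => di p && nc l p && !Nat.beq (p.1 % 3) (p.2 % 3)) &&
    (List.range 15).all fun a => (List.range 15).all fun b => !di (a, b) || !nc l (a, b) || me l (a, b)

private theorem hco (l : List (ℕ × ℕ)) (h : co l = true) : Colorful 14 l.toFinset := by
  simp only [co, Bool.and_eq_true, List.all_eq_true, Bool.or_eq_true, Bool.not_eq_true',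
    ← Bool.not_eq_true, hdi, hnc, hme, Nat.beq_eq, List.mem_range] at h
  refine ⟨fun ⟨a, b⟩ => ?_, ?_⟩
  · simp only [List.mem_toFinset]
    refine ⟨fun k => (h.1 _ k).1, fun k => ?_⟩
    have := k.1
    exact (h.2 a (by omega) b (by omega)).resolve_left (not_or.2 ⟨not_not.2 k.1, not_not.2 k.2⟩)
  · have E : ∀ a b, Edge 14 l.toFinset a b → a % 3 ≠ b % 3 := by
      rintro a b (e | e | e)
      · omega
      · omega
      · exact (h.1 _ (List.mem_toFinset.1 e)).2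
    exact fun a b c _ _ _ _ x y z => ⟨E _ _ x, E _ _ y, E _ _ z⟩

private def ed (l : List (ℕ × ℕ)) (a b : ℕ) : Bool :=
  Nat.beq b (a + 1) || ((Nat.beq a 1 && Nat.beq b 14) || me l (a, b))

private def tw (l r : List (ℕ × ℕ)) (a b c d e f : ℕ) : Bool :=
  Nat.ble 1 a && (Nat.blt a b && (Nat.blt b c && (Nat.blt c d && (Nat.blt d e && (Nat.blt e f &&
    (Nat.ble f 14 && (ed l a b && (ed l b c && (ed l c d && (ed l d e && (ed l e f && (ed l a f &&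
    ([(a, c), (c, e), (a, e)].all (me l) &&
    (r.all (fun p => (me l p && !me [(a, c), (c, e), (a, e)] p) || me [(b, d), (d, f), (b, f)] p) &&
    (l.all (fun p => me [(a, c), (c, e), (a, e)] p || me r p) &&
    [(b, d), (d, f), (b, f)].all (me r))))))))))))))))

private theorem htw (l r : List (ℕ × ℕ)) (a b c d e f : ℕ) (h : tw l r a b c d e f = true) :
    Twist 14 l.toFinset r.toFinset := by
  have E : ∀ a b, ed l a b = true ↔ Edge 14 l.toFinset a b := fun a b => by simp [ed, Edge, hme]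
  simp only [tw, Bool.and_eq_true, Nat.ble_eq, Nat.blt_eq, E, List.all_eq_true, Bool.or_eq_true,
    Bool.not_eq_true', ← Bool.not_eq_true, hme] at h
  obtain ⟨h1, h2, h3, h4, h5, h6, h7, h8, h9, h10, h11, h12, h13, k1, k2, k3, k4⟩ := h
  refine ⟨a, b, c, d, e, f, h1, h2, h3, h4, h5, h6, h7, h8, h9, h10, h11, h12, h13,
    fun p hp => List.mem_toFinset.2 (k1 p (by simpa using hp)), Finset.ext fun p => ?_⟩
  have := k2 p
  have := k3 p
  have := k4 p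
  simp only [List.mem_toFinset, Finset.mem_union, Finset.mem_sdiff, Finset.mem_insert,
    Finset.mem_singleton, List.mem_cons, List.not_mem_nil, or_false] at *
  tauto

private def st (i : ℕ) : Bool :=
  match Pa.getD i (0, true, 0, 0, 0, 0, 0, 0) with
  | (j, s, a, b, c, d, e, f) => Nat.blt j i &&
    cond s (tw (Ls.getD j []) (Ls.getD i []) a b c d e f) (tw (Ls.getD i []) (Ls.getD j []) a b c d e f)

private theorem k1 : Ls.all co = true := by decide +kernel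
private theorem k2 : (List.range' 1 139).all st = true := by decide +kernel
private theorem k3 : en 14 1 14 = [0, 1, 28, 35, 2, 4, 11, 15, 6, 42, 57, 48, 59, 17, 38, 64, 66, 7, 65, 70, 40, 18, 3, 5, 56, 62, 8, 20, 23, 9, 12, 29, 36, 16, 30, 39, 63, 37, 58, 31, 19, 13, 32, 71, 45, 67, 41, 51, 21, 43, 49, 24, 124, 128, 137, 133, 117, 132, 136, 129, 125, 126, 130, 139, 135, 119, 134, 138, 131, 127, 26, 33, 54, 60, 102, 105, 81, 84, 10, 14, 80, 83, 101, 104, 55, 61, 27, 34, 94, 106, 46, 68, 75, 90, 72, 86, 95, 52, 77, 78, 97, 113, 121, 123, 118, 92, 108, 116, 99, 114, 82, 85, 22, 44, 50, 25, 98, 103, 109, 91, 107, 115, 88, 112, 120, 122, 110, 93, 73, 74, 47, 87, 96, 79, 100, 69, 76, 53, 111, 89].map (Ls.getD · []) := by decide +kernel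

theorem result : ∃ N, 8 ≤ N ∧ N % 3 = 2 ∧ (∃ D, Colorful N D) ∧
    ∀ D D', Colorful N D → Colorful N D' → Relation.ReflTransGen (Adj N) D D' := by
  have C : ∀ i < 140, Colorful 14 (Ls.getD i []).toFinset := fun i hi =>
    hco _ (List.all_eq_true.1 k1 _ (by
      rw [List.getD_eq_getElem _ _ (show i < Ls.length from hi)]; exact List.getElem_mem _))
  have R : ∀ i < 140, Relation.EqvGen (Adj 14) (Ls.getD 0 []).toFinset (Ls.getD i []).toFinset := by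
    intro i
    induction i using Nat.strong_induction_on with
    | _ i ih =>
      intro hi
      rcases Nat.eq_zero_or_pos i with rfl | h
      · exact .refl _
      have := List.all_eq_true.1 k2 i (List.mem_range'_1.2 (by omega))
      unfold st at this
      generalize Pa.getD i _ = z at this
      obtain ⟨j, s, a, b, c, d, e, f⟩ := z
      simp only [Bool.and_eq_true, Nat.blt_eq] at this
      refine .trans _ _ _ (ih j this.1 (by omega)) (.rel _ _ ⟨C j (by omega), C i hi, ?_⟩)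
      cases s
      exacts [.inr (htw _ _ _ _ _ _ _ _ this.2), .inl (htw _ _ _ _ _ _ _ _ this.2)]
  have F : ∀ D, Colorful 14 D → Relation.EqvGen (Adj 14) (Ls.getD 0 []).toFinset D := fun D h => by
    obtain ⟨l, l1, l2⟩ := enum h 14 1 14 le_rfl (by norm_num) le_rfl (by norm_num)
      (.inr (.inl ⟨rfl, rfl⟩))
    rw [k3] at l1
    obtain ⟨i, hi, rfl⟩ := List.mem_map.1 l1
    convert R i (by clear l1 l2; revert i; decide +kernel)
    ext p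
    rw [List.mem_toFinset, l2]
    exact ⟨fun k => ⟨k, ((h.1 p).1 k).1.1, ((h.1 p).1 k).1.2.2⟩, fun k => k.1⟩
  refine ⟨14, by norm_num, by norm_num, ⟨_, C 0 (by norm_num)⟩, fun D D' h h' => ?_⟩
  have := (F D h).symm.trans _ _ _ (F D' h')
  clear h h'
  induction this with
  | rel _ _ k => exact .single k
  | refl => exact .refl
  | symm _ _ u k =>
    clear u
    induction k with
    | refl => exact .refl
    | tail _ a b => exact .head ⟨a.2.1, a.1, a.2.2.symm⟩ b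
  | trans _ _ _ _ _ a b => exact a.trans b

end Pool.Agent.Results.MP_b57ad3_co.Cex
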